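import Mathlib
import Pool.Agent.H16.PGL3
import Pool.Agent.H16.PGL4

set_option autoImplicit false

namespace Pool.Agent.Results.MP_a12d4e_al.PGLTwoQuotient

open scoped NumberField
open Pool.Agent.H16.PGL

/-- The rank one Chevalley group scheme `PGL₂` and the comparison group `SL₂` of the same rank.
Both buildings are the set `ℙ¹(K)`; `OrbitSpace H` is the set of orbits of `H ≤ GL₂(K)` on it,
`SL2 (𝓞 K) K` is `SL₂(𝓞 K)` and `PGL2 (𝓞 K) K` is the preimage in `GL₂(K)` of
`PGL₂(𝓞 K) = Aut (M₂(𝓞 K))`, i.e. the normalizer of `M₂(𝓞 K)`. The two quotients are isomorphic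
(i.e. in bijection) exactly when the class number of `K` is odd, and there is a number field for
which they are not isomorphic (namely `ℚ(√-5)`); moreover the comparison quotient is in bijection
with the class group. -/
theorem result :
    (∀ (K : Type) [Field K] [NumberField K],
      Nonempty (OrbitSpace (SL2 (𝓞 K) K) ≃ ClassGroup (𝓞 K)) ∧
      (Nonempty (OrbitSpace (PGL2 (𝓞 K) K) ≃ OrbitSpace (SL2 (𝓞 K) K)) ↔
        Odd (NumberField.classNumber K))) ∧
    ∃ (K : Type) (_ : Field K) (_ : NumberField K),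
      IsEmpty (OrbitSpace (PGL2 (𝓞 K) K) ≃ OrbitSpace (SL2 (𝓞 K) K)) := by
  refine ⟨?_, K5, inferInstance, inferInstance, ?_⟩
  · intro K _ _
    exact ⟨⟨Equiv.ofBijective toClass bij_toClass⟩, iff_odd⟩
  · obtain ⟨t, ht, ht2⟩ := exists_two_torsion
    exact isEmpty_equiv ht ht2

end Pool.Agent.Results.MP_a12d4e_al.PGLTwoQuotient
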